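import Pool.Agent.Helper211.ES.Pack

set_option autoImplicit false

namespace Pool.Agent.Results.MP_de1a09_co.SmallTreesPack

/-- The `s` smallest trees of every Gyárfás–Lehel sequence pack into `K_n`
as soon as `(2s+1)^2 < 3n^2 + 2n` (for instance if `s ≤ (√3/2) n - 1/4`). -/
theorem result (n s : ℕ) (h : (2 * s + 1) ^ 2 < 3 * n ^ 2 + 2 * n)
    (T : (i : Fin s) → SimpleGraph (Fin ((i : ℕ) + 2))) (hT : ∀ i, (T i).IsTree) :
    ∃ f : (i : Fin s) → (Fin ((i : ℕ) + 2) ↪ Fin n),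
      ∀ i j : Fin s, i ≠ j → Disjoint ((T i).map (f i)) ((T j).map (f j)) :=
  ES211.pack h T hT

end Pool.Agent.Results.MP_de1a09_co.SmallTreesPack
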